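import Pool.Agent.Helper57.QZ.Stmts2
import Pool.Agent.Helper6.ZM.KW

set_option autoImplicit false

namespace Pool.Agent.Helper77.Q2

open MeasureTheory Set Filter Topology Pool.Agent.Helper57.QZ

/-- the frequency -/
noncomputable def lam {y : ℕ} (n : Pr y → ℤ) : ℝ := ∑ p : Pr y, (n p : ℝ) * Real.log (p : ℕ)

theorem log_gap {a b : ℕ} (hb : 1 ≤ b) (hab : b < a) : 1 ≤ (Real.log a - Real.log b) * a := by
  have ha0 : (0 : ℝ) < a := by exact_mod_cast (lt_of_le_of_lt (Nat.zero_le b) hab)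
  have hb0 : (0 : ℝ) < b := by exact_mod_cast hb
  have h1 : 1 - ((a : ℝ) / b)⁻¹ ≤ Real.log ((a : ℝ) / b) :=
    Real.one_sub_inv_le_log_of_pos (div_pos ha0 hb0)
  rw [Real.log_div ha0.ne' hb0.ne', inv_div] at h1
  have h2 : (1 - (b : ℝ) / a) * a ≤ (Real.log a - Real.log b) * a :=
    mul_le_mul_of_nonneg_right h1 ha0.le
  have h3 : (1 - (b : ℝ) / a) * a = a - b := by
    field_simp
  have h4 : (b : ℝ) + 1 ≤ a := by exact_mod_cast hab
  linarith

theorem lam_lower {y D : ℕ} (hy : 1 ≤ y) (n : Pr y → ℤ) (hn : n ≠ 0)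
    (hD : ∑ p, |n p| ≤ (D : ℤ)) : 1 ≤ |lam n| * (y : ℝ) ^ D := by
  have hpr : ∀ p : Pr y, (p : ℕ).Prime := fun p => (Nat.mem_primesBelow.1 p.2).2
  have hpy : ∀ p : Pr y, (p : ℕ) ≤ y := fun p => Nat.lt_succ_iff.1 (Nat.mem_primesBelow.1 p.2).1
  have hlam : lam n ≠ 0 := fun h =>
    hn (Pool.Agent.Helper6.ZM.log_indep (Nat.primesBelow (y + 1))
      (fun p hp => (Nat.mem_primesBelow.1 hp).2) n h)
  have hpp : ∀ p : Pr y, (0 : ℝ) < ((p : ℕ) : ℝ) := fun p => by exact_mod_cast (hpr p).pos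
  obtain ⟨a, ha⟩ : ∃ a : ℕ, a = ∏ p : Pr y, (p : ℕ) ^ (n p).toNat := ⟨_, rfl⟩
  obtain ⟨b, hb⟩ : ∃ b : ℕ, b = ∏ p : Pr y, (p : ℕ) ^ (-(n p)).toNat := ⟨_, rfl⟩
  have la : Real.log a = ∑ p : Pr y, ((n p).toNat : ℝ) * Real.log (p : ℕ) := by
    rw [ha]
    push_cast
    rw [Real.log_prod (fun p _ => pow_ne_zero _ (hpp p).ne')]
    exact Finset.sum_congr rfl fun p _ => Real.log_pow _ _
  have lb : Real.log b = ∑ p : Pr y, ((-(n p)).toNat : ℝ) * Real.log (p : ℕ) := by
    rw [hb]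
    push_cast
    rw [Real.log_prod (fun p _ => pow_ne_zero _ (hpp p).ne')]
    exact Finset.sum_congr rfl fun p _ => Real.log_pow _ _
  have lab : lam n = Real.log a - Real.log b := by
    rw [la, lb, ← Finset.sum_sub_distrib]
    unfold lam
    refine Finset.sum_congr rfl fun p _ => ?_
    rw [← sub_mul]
    congr 1
    have h1 : ((n p).toNat : ℤ) - ((-(n p)).toNat : ℤ) = n p := by omega
    exact_mod_cast h1.symm
  have hab : a * b ≤ y ^ D := by
    rw [ha, hb, ← Finset.prod_mul_distrib]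
    have h1 : ∀ p : Pr y, (p : ℕ) ^ (n p).toNat * (p : ℕ) ^ (-(n p)).toNat ≤
        y ^ (n p).natAbs := by
      intro p
      rw [← pow_add]
      have h2 : (n p).toNat + (-(n p)).toNat = (n p).natAbs := by omega
      rw [h2]
      exact Nat.pow_le_pow_left (hpy p) _
    refine (Finset.prod_le_prod' fun p _ => h1 p).trans ?_
    rw [Finset.prod_pow_eq_pow_sum]
    refine Nat.pow_le_pow_right hy ?_
    have h3 : ((∑ p : Pr y, (n p).natAbs : ℕ) : ℤ) ≤ (D : ℤ) := by
      push_cast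
      exact hD
    exact_mod_cast h3
  have ha1 : 1 ≤ a := by
    rw [ha]
    exact Nat.one_le_iff_ne_zero.2 (Finset.prod_ne_zero_iff.2 fun p _ =>
      pow_ne_zero _ (hpr p).ne_zero)
  have hb1 : 1 ≤ b := by
    rw [hb]
    exact Nat.one_le_iff_ne_zero.2 (Finset.prod_ne_zero_iff.2 fun p _ =>
      pow_ne_zero _ (hpr p).ne_zero)
  have haD : (a : ℝ) ≤ (y : ℝ) ^ D := by
    have : a ≤ y ^ D := le_trans (Nat.le_mul_of_pos_right a hb1) hab
    exact_mod_cast this
  have hbD : (b : ℝ) ≤ (y : ℝ) ^ D := by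
    have : b ≤ y ^ D := le_trans (Nat.le_mul_of_pos_left b ha1) hab
    exact_mod_cast this
  have hne : a ≠ b := by
    intro h
    rw [h, sub_self] at lab
    exact hlam lab
  rcases lt_or_gt_of_ne hne with h | h
  · have h1 := log_gap ha1 h
    have h2 : (Real.log b - Real.log a) ≤ |lam n| := by
      rw [lab, abs_sub_comm]
      exact le_abs_self _
    calc (1 : ℝ) ≤ (Real.log b - Real.log a) * b := h1
      _ ≤ |lam n| * b := mul_le_mul_of_nonneg_right h2 (Nat.cast_nonneg b)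
      _ ≤ |lam n| * (y : ℝ) ^ D := mul_le_mul_of_nonneg_left hbD (abs_nonneg _)
  · have h1 := log_gap hb1 h
    have h2 : (Real.log a - Real.log b) ≤ |lam n| := by
      rw [lab]
      exact le_abs_self _
    calc (1 : ℝ) ≤ (Real.log a - Real.log b) * a := h1
      _ ≤ |lam n| * a := mul_le_mul_of_nonneg_right h2 (Nat.cast_nonneg a)
      _ ≤ |lam n| * (y : ℝ) ^ D := mul_le_mul_of_nonneg_left haD (abs_nonneg _)

/-- one character -/
noncomputable def ch {y : ℕ} (n : Pr y → ℤ) (φ : Pr y → ℝ) : ℂ :=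
  Complex.exp (((∑ p, (n p : ℝ) * φ p : ℝ) : ℂ) * Complex.I)

theorem ch_cont {y : ℕ} (n : Pr y → ℤ) : Continuous (ch n) := by
  unfold ch
  fun_prop

theorem ch_norm {y : ℕ} (n : Pr y → ℤ) (φ : Pr y → ℝ) : ‖ch n φ‖ = 1 := by
  unfold ch
  exact Complex.norm_exp_ofReal_mul_I _

theorem circ_int (m : ℤ) (hm : m ≠ 0) :
    ∫ φ : ℝ, Complex.exp ((((m : ℝ) * φ : ℝ) : ℂ) * Complex.I) ∂circ = 0 := by
  unfold circ
  rw [integral_smul_measure, ← intervalIntegral.integral_of_le (by positivity)]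
  have hc : ((m : ℂ) * Complex.I) ≠ 0 :=
    mul_ne_zero (by exact_mod_cast hm) Complex.I_ne_zero
  have h1 : ∫ x in (0:ℝ)..(2 * Real.pi), Complex.exp ((((m : ℝ) * x : ℝ) : ℂ) * Complex.I) = 0 := by
    have h2 : (fun x : ℝ => Complex.exp ((((m : ℝ) * x : ℝ) : ℂ) * Complex.I)) =
        fun x : ℝ => Complex.exp (((m : ℂ) * Complex.I) * x) := by
      funext x
      congr 1
      push_cast
      ring
    rw [h2, integral_exp_mul_complex hc]
    have h3 : Complex.exp (((m : ℂ) * Complex.I) * ((2 * Real.pi : ℝ) : ℂ)) = 1 := by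
      have := Complex.exp_int_mul_two_pi_mul_I m
      rw [← this]
      congr 1
      push_cast
      ring
    rw [h3]
    simp
  rw [h1, smul_zero]

theorem ch_tor {y : ℕ} (n : Pr y → ℤ) (hn : n ≠ 0) : ∫ φ, ch n φ ∂tor y = 0 := by
  have h1 : ∀ φ : Pr y → ℝ, ch n φ =
      ∏ p : Pr y, Complex.exp ((((n p : ℝ) * φ p : ℝ) : ℂ) * Complex.I) := by
    intro φ
    unfold ch
    rw [← Complex.exp_sum]
    congr 1
    push_cast
    rw [Finset.sum_mul]
  simp only [h1]
  unfold tor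
  have h2 := integral_fintype_prod_eq_prod (𝕜 := ℂ) (μ := fun _ : Pr y => circ)
    (fun (p : Pr y) (t : ℝ) => Complex.exp ((((n p : ℝ) * t : ℝ) : ℂ) * Complex.I))
  rw [h2]
  obtain ⟨p, hp⟩ := Function.ne_iff.1 hn
  exact Finset.prod_eq_zero (Finset.mem_univ p) (circ_int (n p) hp)

theorem ch_line {y : ℕ} (n : Pr y → ℤ) (T : ℝ) (hl : lam n ≠ 0) :
    ‖∫ t in T..(2 * T), ch n (lin y t)‖ ≤ 2 / |lam n| := by
  have hc : ((lam n : ℂ) * Complex.I) ≠ 0 :=
    mul_ne_zero (by exact_mod_cast hl) Complex.I_ne_zero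
  have h2 : (fun t : ℝ => ch n (lin y t)) =
      fun t : ℝ => Complex.exp (((lam n : ℂ) * Complex.I) * t) := by
    funext t
    unfold ch lin lam
    congr 1
    push_cast
    rw [Finset.sum_mul, Finset.sum_mul, Finset.sum_mul]
    refine Finset.sum_congr rfl fun p _ => ?_
    ring
  rw [h2, integral_exp_mul_complex hc, norm_div]
  have h3 : ∀ x : ℝ, ‖Complex.exp (((lam n : ℂ) * Complex.I) * x)‖ = 1 := by
    intro x
    have h4 : ((lam n : ℂ) * Complex.I) * x = ((lam n * x : ℝ) : ℂ) * Complex.I := by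
      push_cast
      ring
    rw [h4]
    exact Complex.norm_exp_ofReal_mul_I _
  have h5 : ‖((lam n : ℂ) * Complex.I)‖ = |lam n| := by
    rw [norm_mul, Complex.norm_I, mul_one, Complex.norm_real, Real.norm_eq_abs]
  rw [h5]
  refine div_le_div_of_nonneg_right ?_ (abs_nonneg _)
  refine (norm_sub_le _ _).trans ?_
  rw [h3, h3]
  norm_num

theorem ch_diff {y D : ℕ} (hy : 1 ≤ y) (n : Pr y → ℤ) (hD : ∑ p, |n p| ≤ (D : ℤ)) (T : ℝ) :
    ‖(∫ t in T..(2 * T), ch n (lin y t)) - T * ∫ φ, ch n φ ∂tor y‖ ≤ 2 * (y : ℝ) ^ D := by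
  by_cases hn : n = 0
  · have h1 : ∀ φ : Pr y → ℝ, ch n φ = 1 := by
      intro φ
      unfold ch
      rw [hn]
      simp
    simp only [h1]
    have hp : IsProbabilityMeasure (tor y) := by
      unfold tor
      infer_instance
    have h2 : ∫ _ : Pr y → ℝ, (1 : ℂ) ∂tor y = 1 := by simp
    rw [h2]
    have h3 : (∫ _ in T..(2 * T), (1 : ℂ)) = (T : ℂ) := by
      rw [intervalIntegral.integral_const]
      have : 2 * T - T = T := by ring
      rw [this]
      simp
    rw [h3, mul_one, sub_self, norm_zero]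
    positivity
  · have h1 := lam_lower hy n hn hD
    have hl : lam n ≠ 0 := by
      intro h
      rw [h, abs_zero, zero_mul] at h1
      linarith
    rw [ch_tor n hn, mul_zero, sub_zero]
    refine (ch_line n T hl).trans ?_
    rw [div_le_iff₀ (abs_pos.2 hl)]
    nlinarith

theorem st_TPM : ST_TPM := by
  intro y D C F hy hF T hT
  obtain ⟨ι, hι, n, c, hn, hc, hFe⟩ := hF
  have hFe' : ∀ φ, F φ = ∑ j, c j * ch (n j) φ := hFe
  have hp : IsProbabilityMeasure (tor y) := by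
    unfold tor
    infer_instance
  have hlin : Continuous (lin y) := by
    unfold lin
    fun_prop
  have h1 : (∫ t in T..(2 * T), F (lin y t)) = ∑ j, c j * ∫ t in T..(2 * T), ch (n j) (lin y t) := by
    simp only [hFe']
    rw [intervalIntegral.integral_finsetSum]
    · exact Finset.sum_congr rfl fun j _ => intervalIntegral.integral_const_mul _ _
    · intro j _
      exact (continuous_const.mul ((ch_cont (n j)).comp hlin)).intervalIntegrable _ _
  have h2 : (∫ φ, F φ ∂tor y) = ∑ j, c j * ∫ φ, ch (n j) φ ∂tor y := by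
    simp only [hFe']
    rw [integral_finsetSum]
    · exact Finset.sum_congr rfl fun j _ => integral_const_mul _ _
    · intro j _
      refine Integrable.const_mul ?_ _
      refine Integrable.of_bound (C := 1) (ch_cont (n j)).aestronglyMeasurable ?_
      exact Filter.Eventually.of_forall fun φ => (ch_norm (n j) φ).le
  rw [h1, h2, Finset.mul_sum, ← Finset.sum_sub_distrib]
  have h3 : ∀ j, ‖c j * (∫ t in T..(2 * T), ch (n j) (lin y t)) -
      T * (c j * ∫ φ, ch (n j) φ ∂tor y)‖ ≤ ‖c j‖ * (2 * (y : ℝ) ^ D) := by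
    intro j
    have h4 : c j * (∫ t in T..(2 * T), ch (n j) (lin y t)) -
        T * (c j * ∫ φ, ch (n j) φ ∂tor y) =
        c j * ((∫ t in T..(2 * T), ch (n j) (lin y t)) - T * ∫ φ, ch (n j) φ ∂tor y) := by
      ring
    rw [h4, norm_mul]
    exact mul_le_mul_of_nonneg_left (ch_diff hy (n j) (hn j) T) (norm_nonneg _)
  refine (norm_sum_le _ _).trans ((Finset.sum_le_sum fun j _ => h3 j).trans ?_)
  rw [← Finset.sum_mul]
  have h5 : (0 : ℝ) ≤ 2 * (y : ℝ) ^ D := by positivity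
  calc (∑ j, ‖c j‖) * (2 * (y : ℝ) ^ D) ≤ C * (2 * (y : ℝ) ^ D) :=
        mul_le_mul_of_nonneg_right hc h5
    _ = 2 * C * (y : ℝ) ^ D := by ring

theorem st_tpm : ST_TPM := st_TPM

end Pool.Agent.Helper77.Q2
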